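import Pool.Agent.Y690.PP.Stm

/-!
# Project PP: the symbols are multiplicative and periodic
-/

set_option autoImplicit false

namespace Pool.Agent.Y944.PP

open Pool.Agent.Y690.PP

/-! ### (1), (2): quadratic residue symbols -/

lemma mk_eq_zero_iff (p a : G) :
    (Ideal.Quotient.mk (Ideal.span {p}) a = 0) ↔ p ∣ a := by
  rw [Ideal.Quotient.eq_zero_iff_mem, Ideal.mem_span_singleton]

lemma mk_isSquare_iff (p a : G) :
    IsSquare (Ideal.Quotient.mk (Ideal.span {p}) a) ↔ ∃ b : G, p ∣ b * b - a := by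
  constructor
  · rintro ⟨r, hr⟩
    obtain ⟨b, rfl⟩ := Ideal.Quotient.mk_surjective r
    refine ⟨b, ?_⟩
    rw [← mk_eq_zero_iff, map_sub, map_mul, hr, sub_self]
  · rintro ⟨b, hb⟩
    refine ⟨Ideal.Quotient.mk _ b, ?_⟩
    rw [← mk_eq_zero_iff, map_sub, map_mul, sub_eq_zero] at hb
    exact hb.symm

lemma finite_quot (p : G) (hp : p ≠ 0) : Finite (G ⧸ Ideal.span {p}) := by
  have hn : (p.norm.natAbs : ℕ) ≠ 0 := by
    intro h
    rw [Int.natAbs_eq_zero, GaussianInt.norm_eq_zero] at h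
    exact hp h
  have hdvd : p ∣ ((p.norm.natAbs : ℤ) : G) := by
    have h1 : ((p.norm.natAbs : ℤ)) = p.norm := by
      rw [Int.natCast_natAbs, abs_of_nonneg (GaussianInt.norm_nonneg p)]
    rw [h1, Zsqrtd.norm_eq_mul_conj]
    exact dvd_mul_right _ _
  let f : Fin (p.norm.natAbs) × Fin (p.norm.natAbs) → G ⧸ Ideal.span {p} := fun x =>
    Ideal.Quotient.mk _ ⟨((x.1 : ℕ) : ℤ), ((x.2 : ℕ) : ℤ)⟩
  refine Finite.of_surjective f ?_
  intro y
  obtain ⟨a, rfl⟩ := Ideal.Quotient.mk_surjective y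
  have hpos : (0 : ℤ) < (p.norm.natAbs : ℤ) := by exact_mod_cast Nat.pos_of_ne_zero hn
  refine ⟨(⟨(a.re % (p.norm.natAbs : ℤ)).toNat, ?_⟩, ⟨(a.im % (p.norm.natAbs : ℤ)).toNat, ?_⟩), ?_⟩
  · have h1 := Int.emod_nonneg a.re hpos.ne'
    have h2 := Int.emod_lt_of_pos a.re hpos
    omega
  · have h1 := Int.emod_nonneg a.im hpos.ne'
    have h2 := Int.emod_lt_of_pos a.im hpos
    omega
  · have h1 := Int.emod_nonneg a.re hpos.ne'
    have h2 := Int.emod_nonneg a.im hpos.ne'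
    show Ideal.Quotient.mk _ _ = Ideal.Quotient.mk _ _
    rw [Ideal.Quotient.mk_eq_mk_iff_sub_mem, Ideal.mem_span_singleton]
    refine dvd_trans hdvd ⟨⟨-(a.re / (p.norm.natAbs : ℤ)), -(a.im / (p.norm.natAbs : ℤ))⟩, ?_⟩
    have e1 := Int.emod_add_mul_ediv a.re (p.norm.natAbs : ℤ)
    have e2 := Int.emod_add_mul_ediv a.im (p.norm.natAbs : ℤ)
    refine Zsqrtd.ext ?_ ?_
    · simp only [Zsqrtd.re_sub, Zsqrtd.re_mul, Zsqrtd.re_intCast, Zsqrtd.im_intCast,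
        Int.toNat_of_nonneg h1]
      linarith
    · simp only [Zsqrtd.im_sub, Zsqrtd.im_mul, Zsqrtd.re_intCast, Zsqrtd.im_intCast,
        Int.toNat_of_nonneg h2]
      linarith

lemma qs_mul (p : G) (hp : Prime p) (v w : G) : qs p (v * w) = qs p v * qs p w := by
  classical
  haveI hmax : (Ideal.span {p}).IsMaximal :=
    PrincipalIdealRing.isMaximal_of_irreducible hp.irreducible
  letI : Field (G ⧸ Ideal.span {p}) := Ideal.Quotient.field _
  haveI : Finite (G ⧸ Ideal.span {p}) := finite_quot p hp.ne_zero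
  letI : Fintype (G ⧸ Ideal.span {p}) := Fintype.ofFinite _
  have key : ∀ a : G, qs p a = quadraticCharFun (G ⧸ Ideal.span {p}) (Ideal.Quotient.mk _ a) := by
    intro a
    unfold qs quadraticCharFun
    simp only [mk_eq_zero_iff, mk_isSquare_iff]
  rw [key, key, key, map_mul]
  exact quadraticCharFun_mul _ _

open Classical in
lemma qs_eq (p a : G) : qs p a = if Ideal.Quotient.mk (Ideal.span {p}) a = 0 then 0 else
    if IsSquare (Ideal.Quotient.mk (Ideal.span {p}) a) then 1 else -1 := by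
  unfold qs
  simp only [mk_eq_zero_iff, mk_isSquare_iff]

lemma qs_congr (p v w : G) (h : p ∣ v - w) : qs p v = qs p w := by
  have h1 : Ideal.Quotient.mk (Ideal.span {p}) v = Ideal.Quotient.mk (Ideal.span {p}) w := by
    rw [← sub_eq_zero, ← map_sub, mk_eq_zero_iff]
    exact h
  rw [qs_eq, qs_eq, h1]

/-! ### (3), (4): the sign -/

lemma ff_ne_zero : (⟨2, 2⟩ : G) ≠ 0 := by
  intro h
  have := congrArg Zsqrtd.re h
  simp at this

open Classical in
lemma sg_eq (z : G) : sg (1 + (⟨2, 2⟩ : G) * z) = if Even z.re then 1 else -1 := by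
  unfold sg
  congr 1
  apply propext
  constructor
  · rintro ⟨x, y, hx, h⟩
    have h1 : (⟨2, 2⟩ : G) * z = (⟨2, 2⟩ : G) * ⟨x, y⟩ := add_left_cancel h
    have h2 : z = ⟨x, y⟩ := mul_left_cancel₀ ff_ne_zero h1
    rw [h2]
    exact hx
  · intro h
    exact ⟨z.re, z.im, h, rfl⟩

lemma prm_iff (a : G) : Prm a ↔ ∃ z : G, a = 1 + (⟨2, 2⟩ : G) * z := by
  unfold Prm
  constructor
  · rintro ⟨z, hz⟩
    exact ⟨z, by rw [← hz]; ring⟩
  · rintro ⟨z, rfl⟩
    exact ⟨z, by ring⟩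

lemma sg_mul (v w : G) (hv : Prm v) (hw : Prm w) : sg (v * w) = sg v * sg w := by
  obtain ⟨z, rfl⟩ := (prm_iff v).1 hv
  obtain ⟨u, rfl⟩ := (prm_iff w).1 hw
  have h : (1 + (⟨2, 2⟩ : G) * z) * (1 + (⟨2, 2⟩ : G) * u) =
      1 + (⟨2, 2⟩ : G) * (z + u + (⟨2, 2⟩ : G) * z * u) := by ring
  rw [h, sg_eq, sg_eq, sg_eq]
  have h2 : (z + u + (⟨2, 2⟩ : G) * z * u).re =
      z.re + u.re + 2 * ((z.re - z.im) * u.re - (z.re + z.im) * u.im) := by
    simp only [Zsqrtd.re_add, Zsqrtd.re_mul, Zsqrtd.im_mul]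
    ring
  rw [h2]
  by_cases h3 : Even z.re <;> by_cases h4 : Even u.re <;>
    simp [h3, h4, Int.even_add, Int.even_mul]

lemma sg_congr (v w : G) (hv : Prm v) (h : (8 : G) ∣ v - w) : Prm w ∧ sg v = sg w := by
  obtain ⟨z, rfl⟩ := (prm_iff v).1 hv
  obtain ⟨k, hk⟩ := h
  have h8 : (8 : G) = (⟨2, 2⟩ : G) * ⟨2, -2⟩ := by
    refine Zsqrtd.ext ?_ ?_ <;> simp [Zsqrtd.re_mul, Zsqrtd.im_mul]
  have hw : w = 1 + (⟨2, 2⟩ : G) * (z - (⟨2, -2⟩ : G) * k) := by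
    have : w = 1 + (⟨2, 2⟩ : G) * z - 8 * k := by rw [← hk]; ring
    rw [this, h8]
    ring
  refine ⟨(prm_iff w).2 ⟨_, hw⟩, ?_⟩
  rw [hw, sg_eq, sg_eq]
  have h2 : (z - (⟨2, -2⟩ : G) * k).re = z.re - 2 * (k.re + k.im) := by
    simp only [Zsqrtd.re_sub, Zsqrtd.re_mul]
    ring
  rw [h2]
  by_cases h3 : Even z.re <;> simp [h3, Int.even_sub, Int.even_mul]

theorem t_MULT : SMULT :=
  ⟨fun p hp _ v w => qs_mul p hp v w, qs_congr, sg_mul, sg_congr⟩

end Pool.Agent.Y944.PP
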