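import Pool.Agent.Y690.PP.Stm

/-!
# Project PP: the numerical value of the constant
-/

set_option autoImplicit false

namespace Pool.Agent.Y944.PP

open Pool.Agent.Y690.PP (al)
open Finset Filter Topology

/-- the partial products -/
noncomputable def pn (n : ℕ) : ℝ := ∏ i ∈ range n, (1 - (1 / 2 : ℝ) ^ (2 * i + 1))

lemma pn_succ (n : ℕ) : pn (n + 1) = pn n * (1 - (1 / 2 : ℝ) ^ (2 * n + 1)) := by
  unfold pn
  rw [Finset.prod_range_succ]

lemma pn_lim : Tendsto pn atTop (𝓝 al) := by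
  have h : Multipliable (fun i : ℕ => 1 - (1 / 2 : ℝ) ^ (2 * i + 1)) := by
    have h2 : Summable (fun i : ℕ => ‖-((1 / 2 : ℝ) ^ (2 * i + 1))‖) := by
      have h3 : Summable (fun i : ℕ => (1 / 2 : ℝ) * ((1 / 4 : ℝ)) ^ i) :=
        (summable_geometric_of_lt_one (by norm_num) (by norm_num)).mul_left _
      refine h3.congr fun i => ?_
      rw [norm_neg, norm_pow, Real.norm_eq_abs, abs_of_pos (by norm_num : (0 : ℝ) < 1 / 2), pow_succ,
        pow_mul]
      norm_num
      ring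
    have h4 := multipliable_one_add_of_summable h2
    simpa [sub_eq_add_neg] using h4
  exact h.hasProd.tendsto_prod_nat

lemma pn_six : pn 6 = (1 / 2) * (7 / 8) * (31 / 32) * (127 / 128) * (511 / 512) * (2047 / 2048) := by
  unfold pn
  simp only [Finset.prod_range_succ, Finset.prod_range_zero]
  norm_num

lemma pn_bounds (n : ℕ) : 0 < pn (n + 6) ∧ pn (n + 6) ≤ pn 6 ∧
    pn 6 * (1 - 4 / 3 * ((1 / 2 : ℝ) ^ 13 - (1 / 2 : ℝ) ^ (2 * (n + 6) + 1))) ≤ pn (n + 6) := by
  induction n with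
  | zero =>
    rw [zero_add]
    refine ⟨?_, le_rfl, ?_⟩
    · rw [pn_six]; norm_num
    · norm_num
  | succ n ih =>
    obtain ⟨h1, h2, h3⟩ := ih
    have e : n + 1 + 6 = (n + 6) + 1 := by ring
    rw [e, pn_succ]
    set x : ℝ := (1 / 2 : ℝ) ^ (2 * (n + 6) + 1) with hx
    have hx0 : 0 < x := by positivity
    have hx1 : x < 1 := pow_lt_one₀ (by norm_num) (by norm_num) (by omega)
    have hx2 : (1 / 2 : ℝ) ^ (2 * (n + 6 + 1) + 1) = x / 4 := by
      rw [hx]
      rw [show 2 * (n + 6 + 1) + 1 = (2 * (n + 6) + 1) + 2 by ring, pow_add]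
      ring
    rw [hx2]
    refine ⟨mul_pos h1 (by linarith), ?_, ?_⟩
    · nlinarith
    · nlinarith

theorem t_NUM : (419 / 1000 : ℝ) < al := by
  have h1 : pn 6 * (1 - 4 / 3 * (1 / 2 : ℝ) ^ 13) ≤ al := by
    refine ge_of_tendsto ((tendsto_add_atTop_iff_nat 6).2 pn_lim) (Eventually.of_forall fun n => ?_)
    obtain ⟨h1, h2, h3⟩ := pn_bounds n
    refine le_trans ?_ h3
    have h6 : 0 < pn 6 := h1.trans_le h2
    have h7 : (0 : ℝ) < (1 / 2 : ℝ) ^ (2 * (n + 6) + 1) := by positivity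
    nlinarith
  refine lt_of_lt_of_le ?_ h1
  rw [pn_six]
  norm_num

theorem t_UP : al < 42 / 100 := by
  have h1 : al ≤ pn 6 :=
    le_of_tendsto ((tendsto_add_atTop_iff_nat 6).2 pn_lim)
      (Eventually.of_forall fun n => (pn_bounds n).2.1)
  refine lt_of_le_of_lt h1 ?_
  rw [pn_six]
  norm_num

end Pool.Agent.Y944.PP
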